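import Pool.Agent.Lib_helper76.IT.LK

set_option autoImplicit false

namespace Pool.Agent.IT

open Polynomial

lemma norm_factorial_eq_one {p : ℕ} [hp : Fact p.Prime] {d : ℕ} (hdp : d < p) :
    ‖((d.factorial : ℕ) : ℂ_[p])‖ = 1 := by
  have h2 : ‖((d.factorial : ℕ) : ℚ_[p])‖ = 1 := by
    rw [Padic.norm_natCast_eq_one_iff]
    refine (Nat.Prime.coprime_iff_not_dvd hp.out).mpr fun hdvd => ?_
    exact absurd ((hp.out.dvd_factorial).mp hdvd) (not_le.mpr hdp)
  have h3 : (algebraMap ℚ_[p] ℂ_[p]) ((d.factorial : ℕ) : ℚ_[p]) =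
      ((d.factorial : ℕ) : ℂ_[p]) := map_natCast _ _
  rw [← h3, norm_algebraMap', h2]

lemma eval₂_norm_le_one {p : ℕ} [hp : Fact p.Prime] {σ : Type} (P : MvPolynomial σ ℤ)
    (t : σ → ℂ_[p]) (ht : ∀ j, ‖t j‖ ≤ 1) :
    ‖MvPolynomial.eval₂ (Int.castRingHom ℂ_[p]) t P‖ ≤ 1 := by
  induction P using MvPolynomial.induction_on with
  | C a =>
    rw [MvPolynomial.eval₂_C, eq_intCast]
    exact IsUltrametricDist.norm_intCast_le_one ℂ_[p] a
  | add f g hf hg =>
    rw [MvPolynomial.eval₂_add]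
    exact (IsUltrametricDist.norm_add_le_max _ _).trans (max_le hf hg)
  | mul_X f i hf =>
    rw [MvPolynomial.eval₂_mul, MvPolynomial.eval₂_X, norm_mul]
    exact mul_le_one₀ hf (norm_nonneg _) (ht i)

/-- BLOCK INT. Integral power sums, `p > d`: the numbers are integral. -/
theorem block_INT {p : ℕ} [hp : Fact p.Prime] {d : ℕ} (hdp : d < p) (α : Fin d → ℂ_[p])
    (h : ∀ j : Fin d, ‖∑ i, α i ^ ((j : ℕ) + 1)‖ ≤ 1) (i : Fin d) : ‖α i‖ ≤ 1 := by
  classical
  obtain ⟨s, P, hP⟩ := its2_coeff_psum d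
  set F : ℂ_[p][X] := ∏ j, (X - C (α j)) with hF
  have hco : ∀ l, ‖F.coeff l‖ ≤ 1 := by
    intro l
    have h1 := eval₂_norm_le_one (P l) _ h
    rw [hP α l, norm_mul, norm_pow, norm_factorial_eq_one hdp, one_pow, one_mul] at h1
    exact h1
  have hFm : F.Monic := monic_prod_of_monic _ _ fun j _ => monic_X_sub_C _
  have hdeg : F.natDegree = d := by
    rw [hF, natDegree_prod_of_monic _ _ fun j _ => monic_X_sub_C _]
    simp
  have hroot : F.eval (α i) = 0 := by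
    rw [hF, eval_prod]
    exact Finset.prod_eq_zero (Finset.mem_univ i) (by simp)
  by_contra hno
  rw [not_le] at hno
  rw [eval_eq_sum_range, hdeg, Finset.sum_range_succ] at hroot
  have hlead : F.coeff d = 1 := by
    have := hFm.coeff_natDegree
    rwa [hdeg] at this
  rw [hlead, one_mul] at hroot
  have h2 : ‖α i ^ d‖ = ‖∑ l ∈ Finset.range d, F.coeff l * α i ^ l‖ := by
    rw [eq_neg_of_add_eq_zero_right hroot, norm_neg]
  have hd : 0 < d := i.pos
  have h3 : ‖∑ l ∈ Finset.range d, F.coeff l * α i ^ l‖ ≤ ‖α i‖ ^ (d - 1) := by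
    refine IsUltrametricDist.norm_sum_le_of_forall_le_of_nonneg (by positivity) fun l hl => ?_
    rw [norm_mul, norm_pow]
    calc ‖F.coeff l‖ * ‖α i‖ ^ l ≤ 1 * ‖α i‖ ^ (d - 1) :=
          mul_le_mul (hco l) (pow_le_pow_right₀ hno.le
            (by rw [Finset.mem_range] at hl; omega)) (by positivity) zero_le_one
      _ = ‖α i‖ ^ (d - 1) := one_mul _
  rw [← h2, norm_pow] at h3
  have h4 : ‖α i‖ ^ (d - 1) < ‖α i‖ ^ d := pow_lt_pow_right₀ hno (by omega)
  exact absurd h3 (not_le.mpr h4)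

end Pool.Agent.IT
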