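import Mathlib

set_option autoImplicit false

namespace Pool.Agent.IT

open Polynomial

section

variable {L : Type} [NormedField L] [IsUltrametricDist L]

/-- The closed unit ball. -/
def itrm_ball (L : Type) [NormedField L] [IsUltrametricDist L] : Subring L where
  carrier := {x | ‖x‖ ≤ 1}
  mul_mem' := fun {a b} ha hb => by
    show ‖a * b‖ ≤ 1
    rw [norm_mul]
    exact mul_le_one₀ ha (norm_nonneg _) hb
  one_mem' := by
    show ‖(1 : L)‖ ≤ 1
    rw [norm_one]
  add_mem' := fun {a b} ha hb =>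
    (IsUltrametricDist.norm_add_le_max a b).trans (max_le ha hb)
  zero_mem' := by
    show ‖(0 : L)‖ ≤ 1
    rw [norm_zero]
    exact zero_le_one
  neg_mem' := fun {a} ha => by
    show ‖-a‖ ≤ 1
    rw [norm_neg]
    exact ha

/-- All coefficients have norm at most `δ`. -/
def SmallCoeff (F : L[X]) (δ : ℝ) : Prop := ∀ i, ‖F.coeff i‖ ≤ δ

lemma smallCoeff_add {F G : L[X]} {δ : ℝ} (hF : SmallCoeff F δ) (hG : SmallCoeff G δ) :
    SmallCoeff (F + G) δ := fun i => by
  rw [coeff_add]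
  exact (IsUltrametricDist.norm_add_le_max _ _).trans (max_le (hF i) (hG i))

lemma smallCoeff_neg {F : L[X]} {δ : ℝ} (hF : SmallCoeff F δ) : SmallCoeff (-F) δ := fun i => by
  rw [coeff_neg, norm_neg]
  exact hF i

lemma smallCoeff_sub {F G : L[X]} {δ : ℝ} (hF : SmallCoeff F δ) (hG : SmallCoeff G δ) :
    SmallCoeff (F - G) δ := by
  rw [sub_eq_add_neg]
  exact smallCoeff_add hF (smallCoeff_neg hG)

lemma smallCoeff_mul {F G : L[X]} {δ ε : ℝ} (hδ : 0 ≤ δ) (hε : 0 ≤ ε) (hF : SmallCoeff F δ)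
    (hG : SmallCoeff G ε) : SmallCoeff (F * G) (δ * ε) := fun i => by
  rw [coeff_mul]
  refine IsUltrametricDist.norm_sum_le_of_forall_le_of_nonneg (mul_nonneg hδ hε) fun x _ => ?_
  rw [norm_mul]
  exact mul_le_mul (hF _) (hG _) (norm_nonneg _) hδ

lemma smallCoeff_one : SmallCoeff (1 : L[X]) 1 := fun i => by
  rw [coeff_one]
  split_ifs
  · rw [norm_one]
  · rw [norm_zero]
    exact zero_le_one

lemma smallCoeff_C {c : L} {δ : ℝ} (hδ : 0 ≤ δ) (hc : ‖c‖ ≤ δ) : SmallCoeff (C c) δ := fun i => by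
  rw [coeff_C]
  split_ifs
  · exact hc
  · rw [norm_zero]
    exact hδ

lemma smallCoeff_X_sub_C {c : L} (hc : ‖c‖ ≤ 1) : SmallCoeff (X - C c) 1 := by
  refine smallCoeff_sub (fun i => ?_) (smallCoeff_C zero_le_one hc)
  rw [coeff_X]
  split_ifs
  · rw [norm_one]
  · rw [norm_zero]
    exact zero_le_one

lemma smallCoeff_prod {ι : Type} (s : Finset ι) (F : ι → L[X])
    (h : ∀ i ∈ s, SmallCoeff (F i) 1) : SmallCoeff (∏ i ∈ s, F i) 1 := by
  classical
  induction s using Finset.induction_on with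
  | empty =>
    rw [Finset.prod_empty]
    exact smallCoeff_one
  | insert a s ha ih =>
    rw [Finset.prod_insert ha]
    have := smallCoeff_mul zero_le_one zero_le_one (h a (Finset.mem_insert_self a s))
      (ih fun i hi => h i (Finset.mem_insert_of_mem hi))
    rwa [one_mul] at this

/-- Products of close factors are close. -/
lemma smallCoeff_prod_sub {ι : Type} (s : Finset ι) (F G : ι → L[X]) {δ : ℝ} (hδ : 0 ≤ δ)
    (hF : ∀ i ∈ s, SmallCoeff (F i) 1) (hG : ∀ i ∈ s, SmallCoeff (G i) 1)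
    (h : ∀ i ∈ s, SmallCoeff (F i - G i) δ) :
    SmallCoeff (∏ i ∈ s, F i - ∏ i ∈ s, G i) δ := by
  classical
  induction s using Finset.induction_on with
  | empty =>
    rw [Finset.prod_empty, Finset.prod_empty, sub_self]
    intro i
    rw [coeff_zero, norm_zero]
    exact hδ
  | insert a s ha ih =>
    rw [Finset.prod_insert ha, Finset.prod_insert ha]
    have e : F a * ∏ i ∈ s, F i - G a * ∏ i ∈ s, G i =
        F a * (∏ i ∈ s, F i - ∏ i ∈ s, G i) + (F a - G a) * ∏ i ∈ s, G i := by ring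
    rw [e]
    have h1 := smallCoeff_mul zero_le_one hδ (hF a (Finset.mem_insert_self a s))
      (ih (fun i hi => hF i (Finset.mem_insert_of_mem hi))
        (fun i hi => hG i (Finset.mem_insert_of_mem hi))
        fun i hi => h i (Finset.mem_insert_of_mem hi))
    have h2 := smallCoeff_mul hδ zero_le_one (h a (Finset.mem_insert_self a s))
      (smallCoeff_prod s G fun i hi => hG i (Finset.mem_insert_of_mem hi))
    rw [one_mul] at h1
    rw [mul_one] at h2
    exact smallCoeff_add h1 h2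

/-- The remainder modulo a monic polynomial with integral coefficients of a polynomial with small
coefficients has small coefficients. -/
lemma smallCoeff_modByMonic {A E : L[X]} (hA : A.Monic) (hA1 : SmallCoeff A 1) {δ : ℝ}
    (hδ : 0 ≤ δ) (hE : SmallCoeff E δ) : SmallCoeff (E %ₘ A) δ := by
  classical
  -- the powers of `X`
  have hlift : ∃ A' : (itrm_ball L)[X], A'.map (itrm_ball L).subtype = A ∧ A'.Monic := by
    have hsub : (A.coeffs : Set L) ⊆ (itrm_ball L) := by
      intro x hx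
      rw [Finset.mem_coe, mem_coeffs_iff] at hx
      obtain ⟨n, _, rfl⟩ := hx
      exact hA1 n
    refine ⟨A.toSubring _ hsub, map_toSubring _ _ _, ?_⟩
    rw [monic_toSubring]
    exact hA
  obtain ⟨A', hA', hA'm⟩ := hlift
  have hX : ∀ n : ℕ, SmallCoeff ((X ^ n : L[X]) %ₘ A) 1 := by
    intro n i
    have e : (X ^ n : L[X]) %ₘ A = ((X ^ n : (itrm_ball L)[X]) %ₘ A').map (itrm_ball L).subtype := by
      rw [map_modByMonic _ hA'm, hA', Polynomial.map_pow, map_X]
    rw [e, coeff_map]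
    exact (((X ^ n : (itrm_ball L)[X]) %ₘ A').coeff i).2
  have hsum : E %ₘ A = ∑ n ∈ Finset.range (E.natDegree + 1), E.coeff n • ((X ^ n : L[X]) %ₘ A) := by
    conv_lhs => rw [E.as_sum_range_C_mul_X_pow]
    rw [← modByMonicHom_apply, map_sum]
    refine Finset.sum_congr rfl fun n _ => ?_
    rw [← smul_eq_C_mul, map_smul, modByMonicHom_apply]
  intro i
  rw [hsum, finsetSum_coeff]
  refine IsUltrametricDist.norm_sum_le_of_forall_le_of_nonneg hδ fun n _ => ?_
  rw [coeff_smul, smul_eq_mul, norm_mul]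
  calc ‖E.coeff n‖ * ‖((X ^ n : L[X]) %ₘ A).coeff i‖ ≤ δ * 1 :=
        mul_le_mul (hE n) (hX n i) (norm_nonneg _) hδ
    _ = δ := mul_one δ

/-- BLOCK REM. If `e + 1` of the numbers `α` are close to the numbers `μ`, the remainder of
`c ∏ (X - α)` modulo `∏ (X - μ)` is small. -/
theorem block_REM {d e : ℕ} (α : Fin d → L) (hα : ∀ i, ‖α i‖ ≤ 1) (ι : Fin (e + 1) ↪ Fin d)
    (μ : Fin (e + 1) → L) (hμ : ∀ a, ‖μ a‖ ≤ 1) {δ : ℝ} (hδ : 0 ≤ δ)
    (h : ∀ a, ‖α (ι a) - μ a‖ ≤ δ) {c : L} (hc : ‖c‖ ≤ 1) (i : ℕ) :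
    ‖((C c * ∏ j, (X - C (α j))) %ₘ (∏ a, (X - C (μ a)))).coeff i‖ ≤ δ := by
  classical
  set A : L[X] := ∏ a, (X - C (μ a)) with hAdef
  have hAm : A.Monic := monic_prod_of_monic _ _ fun a _ => monic_X_sub_C _
  have hA1 : SmallCoeff A 1 := smallCoeff_prod _ _ fun a _ => smallCoeff_X_sub_C (hμ a)
  set G : L[X] := ∏ j ∈ Finset.univ \ (Finset.univ.map ι), (X - C (α j)) with hG
  have hsplit : ∏ j, (X - C (α j)) = G * ∏ a, (X - C (α (ι a))) := by
    rw [hG, ← Finset.prod_sdiff (Finset.subset_univ (Finset.univ.map ι)), Finset.prod_map]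
  have hG1 : SmallCoeff G 1 := smallCoeff_prod _ _ fun j _ => smallCoeff_X_sub_C (hα j)
  have hD : SmallCoeff (∏ a, (X - C (α (ι a))) - A) δ := by
    refine smallCoeff_prod_sub _ _ _ hδ (fun a _ => smallCoeff_X_sub_C (hα _))
      (fun a _ => smallCoeff_X_sub_C (hμ a)) fun a _ => ?_
    have e1 : (X - C (α (ι a)) : L[X]) - (X - C (μ a)) = -C (α (ι a) - μ a) := by
      rw [C_sub]
      ring
    rw [e1]
    exact smallCoeff_neg (smallCoeff_C hδ (h a))
  have hF : C c * ∏ j, (X - C (α j)) = A * (C c * G) +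
      C c * G * (∏ a, (X - C (α (ι a))) - A) := by
    rw [hsplit]
    ring
  have hsmall : SmallCoeff (C c * G * (∏ a, (X - C (α (ι a))) - A)) δ := by
    have h1 := smallCoeff_mul zero_le_one zero_le_one (smallCoeff_C zero_le_one hc) hG1
    rw [one_mul] at h1
    have h2 := smallCoeff_mul zero_le_one hδ h1 hD
    rwa [one_mul] at h2
  rw [hF, add_modByMonic, self_mul_modByMonic hAm, zero_add]
  exact smallCoeff_modByMonic hAm hA1 hδ hsmall i

end

end Pool.Agent.IT
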