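import Pool.Agent.Lib_helper76.IT.Sp

set_option autoImplicit false

namespace Pool.Agent.IT

open MvPolynomial

/-- The elementary symmetric functions, multiplied by a power of `d !`, are integral polynomials in
the power sums. -/
theorem its2_esymm_psum (d k : ℕ) (hk : k ≤ d) : ∃ (s : ℕ) (P : MvPolynomial (Fin d) ℤ),
    ∀ {A : Type} [CommRing A] (α : Fin d → A),
      MvPolynomial.eval₂ (Int.castRingHom A) (fun j : Fin d => ∑ i, α i ^ ((j : ℕ) + 1)) P =
        ((d.factorial : ℕ) : A) ^ s *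
          ∑ T ∈ Finset.univ.powersetCard k, ∏ i ∈ T, α i := by
  obtain ⟨s, hs⟩ := its2_esymm_mem d k hk
  rw [Algebra.adjoin_range_eq_range_aeval] at hs
  obtain ⟨Q, hQ⟩ := hs
  refine ⟨s, Q, ?_⟩
  intro A _ α
  have hv : (fun j : Fin d => ∑ i, α i ^ ((j : ℕ) + 1)) = fun j => aeval α (its2_ps d j) := by
    funext j
    simp [its2_ps, psum]
  have h1 : MvPolynomial.eval₂ (Int.castRingHom A)
      (fun j : Fin d => ∑ i, α i ^ ((j : ℕ) + 1)) Q = aeval α (aeval (its2_ps d) Q) := by
    rw [hv]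
    have h2 : aeval α (aeval (its2_ps d) Q) = aeval (fun j => aeval α (its2_ps d j)) Q := by
      rw [← MvPolynomial.comp_aeval_apply]
    rw [h2, aeval_def]
    congr 1
  have hQ' : aeval (its2_ps d) Q =
      (d.factorial : MvPolynomial (Fin d) ℤ) ^ s * esymm (Fin d) ℤ k := hQ
  rw [h1, hQ', map_mul, map_pow, map_natCast]
  congr 1
  rw [aeval_esymm_eq_multiset_esymm, Finset.esymm_map_val]

/-- The coefficients of the monic polynomial with the roots `α`, multiplied by a power of `d !`,
are integral polynomials in the power sums. -/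
theorem its2_coeff_psum (d : ℕ) : ∃ (s : ℕ) (P : ℕ → MvPolynomial (Fin d) ℤ),
    ∀ {A : Type} [CommRing A] (α : Fin d → A) (i : ℕ),
      MvPolynomial.eval₂ (Int.castRingHom A) (fun j : Fin d => ∑ i, α i ^ ((j : ℕ) + 1)) (P i) =
        ((d.factorial : ℕ) : A) ^ s * (∏ j, (Polynomial.X - Polynomial.C (α j))).coeff i := by
  classical
  have h := fun k : Fin (d + 1) => its2_esymm_psum d (k : ℕ) (Nat.lt_succ_iff.mp k.2)
  choose s P hP using h
  set S : ℕ := ∑ k, s k with hS
  have hle : ∀ k, s k ≤ S := fun k => Finset.single_le_sum (fun _ _ => Nat.zero_le _)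
    (Finset.mem_univ k)
  have hlt : ∀ i : ℕ, d - i < d + 1 := fun i => Nat.lt_succ_of_le (Nat.sub_le d i)
  refine ⟨S, fun i => if i ≤ d then
    MvPolynomial.C ((-1 : ℤ) ^ (d - i) * (d.factorial : ℤ) ^ (S - s ⟨d - i, hlt i⟩)) *
      P ⟨d - i, hlt i⟩ else 0, ?_⟩
  intro A _ α i
  have hcard : ((Finset.univ : Finset (Fin d)).val.map α).card = d := by simp
  have hprod : ∏ j, (Polynomial.X - Polynomial.C (α j)) =
      (((Finset.univ : Finset (Fin d)).val.map α).map fun t =>
        Polynomial.X - Polynomial.C t).prod := by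
    rw [Multiset.map_map]
    rfl
  by_cases hi : i ≤ d
  · simp only [if_pos hi]
    have hc : (∏ j, (Polynomial.X - Polynomial.C (α j))).coeff i =
        (-1) ^ (d - i) * ∑ T ∈ (Finset.univ : Finset (Fin d)).powersetCard (d - i),
          ∏ j ∈ T, α j := by
      rw [hprod, Multiset.prod_X_sub_C_coeff _ (by rw [hcard]; exact hi), hcard,
        Finset.esymm_map_val]
    rw [hc, MvPolynomial.eval₂_mul, MvPolynomial.eval₂_C, hP]
    have hpow : ((d.factorial : ℕ) : A) ^ S = ((d.factorial : ℕ) : A) ^ (S - s ⟨d - i, hlt i⟩) *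
        ((d.factorial : ℕ) : A) ^ s ⟨d - i, hlt i⟩ := by
      rw [← pow_add, Nat.sub_add_cancel (hle _)]
    rw [hpow]
    simp only [map_mul, map_pow, map_neg, map_one, map_natCast]
    ring
  · simp only [if_neg hi, MvPolynomial.eval₂_zero]
    rw [Polynomial.coeff_eq_zero_of_natDegree_lt, mul_zero]
    refine lt_of_le_of_lt (Polynomial.natDegree_prod_le _ _) ?_
    refine lt_of_le_of_lt (Finset.sum_le_card_nsmul _ _ 1 fun j _ =>
      Polynomial.natDegree_X_sub_C_le _) ?_
    simp
    omega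

end Pool.Agent.IT
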