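import Pool.Agent.Lib_helper76.IT.TR
import Pool.Agent.Lib_helper76.IT.Rem
import Pool.Agent.Lib_helper76.IT.P

set_option autoImplicit false

namespace Pool.Agent.IT

open Polynomial

/-- The polynomial with the coefficients `P_i(t)`, `i ≤ d`. -/
noncomputable def psPoly {A : Type} [CommRing A] {d : ℕ} (P : ℕ → MvPolynomial (Fin d) ℤ)
    (t : Fin d → A) : A[X] :=
  ∑ i ∈ Finset.range (d + 1), C (MvPolynomial.eval₂ (Int.castRingHom A) t (P i)) * X ^ i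

lemma psPoly_coeff {A : Type} [CommRing A] {d : ℕ} (P : ℕ → MvPolynomial (Fin d) ℤ)
    (t : Fin d → A) (l : ℕ) : (psPoly P t).coeff l =
      if l ∈ Finset.range (d + 1) then MvPolynomial.eval₂ (Int.castRingHom A) t (P l) else 0 := by
  classical
  rw [psPoly, finsetSum_coeff]
  simp only [coeff_C_mul, coeff_X_pow, mul_ite, mul_one, mul_zero]
  rw [Finset.sum_ite_eq]

lemma psPoly_map {A B : Type} [CommRing A] [CommRing B] (f : A →+* B) {d : ℕ}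
    (P : ℕ → MvPolynomial (Fin d) ℤ) (t : Fin d → A) :
    (psPoly P t).map f = psPoly P fun j => f (t j) := by
  ext l
  rw [coeff_map, psPoly_coeff, psPoly_coeff]
  split_ifs
  · rw [MvPolynomial.eval₂_comp_left]
    have h1 : f.comp (Int.castRingHom A) = Int.castRingHom B := RingHom.ext_int _ _
    rw [h1]
    rfl
  · exact map_zero f

/-- For the power sums of `α` it is `(d !) ^ s ∏ (X - α)`. -/
lemma psPoly_eq {A : Type} [CommRing A] {d : ℕ} {s : ℕ} {P : ℕ → MvPolynomial (Fin d) ℤ}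
    (hP : ∀ {A : Type} [CommRing A] (α : Fin d → A) (i : ℕ),
      MvPolynomial.eval₂ (Int.castRingHom A) (fun j : Fin d => ∑ i, α i ^ ((j : ℕ) + 1)) (P i) =
        ((d.factorial : ℕ) : A) ^ s * (∏ j, (X - C (α j))).coeff i) (α : Fin d → A) :
    psPoly P (fun j : Fin d => ∑ i, α i ^ ((j : ℕ) + 1)) =
      C (((d.factorial : ℕ) : A) ^ s) * ∏ j, (X - C (α j)) := by
  ext l
  rw [psPoly_coeff, coeff_C_mul]
  split_ifs with hl
  · exact hP α l
  · rw [coeff_eq_zero_of_natDegree_lt, mul_zero]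
    refine lt_of_le_of_lt (natDegree_prod_le _ _) ?_
    refine lt_of_le_of_lt (Finset.sum_le_card_nsmul _ _ 1 fun j _ =>
      natDegree_X_sub_C_le _) ?_
    rw [Finset.mem_range] at hl
    simp
    omega

/-- BLOCK TR2 (transfer from the bottom to a higher level). As block_TR, without roots. -/
theorem block_TR2 {p : ℕ} [hp : Fact p.Prime] {O : Type} [CommRing O] (θ : O →+* ℂ_[p]) {r : ℝ}
    (hr0 : 0 ≤ r) (hr : ∀ a : O, ‖θ a‖ = 1 ∨ ‖θ a‖ ≤ r) (hr1 : r < 1) {d e : ℕ}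
    (Θ : Fin d → O[X]) (P : ℕ → MvPolynomial (Fin d) ℤ)
    (ξ : Fin (e + 1) → O) (u : Fin (e + 1) → ℕ) {w₀ w : ℂ_[p]} (h0 : ‖w₀ - 1‖ ≤ ‖w - 1‖)
    (h1 : ‖w - 1‖ < 1) (i : ℕ)
    (hbig : r < ‖((psPoly P fun j => (Θ j).eval₂ θ w₀) %ₘ
      (∏ a, (X - C (θ (ξ a) * w₀ ^ u a)))).coeff i‖) :
    r < ‖((psPoly P fun j => (Θ j).eval₂ θ w) %ₘ
      (∏ a, (X - C (θ (ξ a) * w ^ u a)))).coeff i‖ := by
  classical
  set F : (O[X])[X] := psPoly P Θ with hF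
  set A : (O[X])[X] := ∏ a, (X - C (C (ξ a) * X ^ u a)) with hA
  have hAm : A.Monic := monic_prod_of_monic _ _ fun a _ => monic_X_sub_C _
  have key : ∀ z : ℂ_[p], ((psPoly P fun j => (Θ j).eval₂ θ z) %ₘ
        (∏ a, (X - C (θ (ξ a) * z ^ u a)))).coeff i = ((F %ₘ A).coeff i).eval₂ θ z := by
    intro z
    have hFz : F.map (eval₂RingHom θ z) = psPoly P fun j => (Θ j).eval₂ θ z := by
      rw [hF, psPoly_map]
      rfl
    have hAz : A.map (eval₂RingHom θ z) = ∏ a, (X - C (θ (ξ a) * z ^ u a)) := by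
      rw [hA, Polynomial.map_prod]
      refine Finset.prod_congr rfl fun a _ => ?_
      rw [Polynomial.map_sub, map_X, map_C]
      simp
    rw [← hFz, ← hAz, ← map_modByMonic _ hAm, coeff_map]
    rfl
  rw [key w₀] at hbig
  rw [key w]
  exact block_U θ hr0 hr hr1 _ h0 h1 hbig

/-- BLOCK LK (the bottom level). -/
theorem block_LK {p : ℕ} [hp : Fact p.Prime] {d e : ℕ} (hdp : d < p) {s : ℕ}
    {P : ℕ → MvPolynomial (Fin d) ℤ}
    (hP : ∀ {A : Type} [CommRing A] (α : Fin d → A) (i : ℕ),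
      MvPolynomial.eval₂ (Int.castRingHom A) (fun j : Fin d => ∑ i, α i ^ ((j : ℕ) + 1)) (P i) =
        ((d.factorial : ℕ) : A) ^ s * (∏ j, (X - C (α j))).coeff i) {r δ : ℝ} (hδ : 0 ≤ δ)
    (hδr : δ ≤ r) (x : Fin d → ℂ_[p]) (hx1 : ∀ j : Fin d, ‖∑ i, x i ^ ((j : ℕ) + 1)‖ ≤ 1)
    (t : Fin d → ℂ_[p]) (ht1 : ∀ j, ‖t j‖ ≤ 1)
    (hclose : ∀ j : Fin d, ‖t j - ∑ i, x i ^ ((j : ℕ) + 1)‖ ≤ δ) (μ : Fin (e + 1) → ℂ_[p])
    (hμ : ∀ a, ‖μ a‖ ≤ 1) (i : ℕ)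
    (h : r < ‖((∏ j, (X - C (x j))) %ₘ (∏ a, (X - C (μ a)))).coeff i‖) :
    r < ‖((psPoly P t) %ₘ (∏ a, (X - C (μ a)))).coeff i‖ := by
  classical
  set A : ℂ_[p][X] := ∏ a, (X - C (μ a)) with hAdef
  have hAm : A.Monic := monic_prod_of_monic _ _ fun a _ => monic_X_sub_C _
  have hA1 : SmallCoeff A 1 := smallCoeff_prod _ _ fun a _ => smallCoeff_X_sub_C (hμ a)
  set f : ℂ_[p][X] := ∏ j, (X - C (x j)) with hf
  have hfac : ‖(((d.factorial : ℕ) : ℂ_[p])) ^ s‖ = 1 := by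
    rw [norm_pow]
    have h1 : ‖((d.factorial : ℕ) : ℂ_[p])‖ = 1 := by
      have h2 : ‖((d.factorial : ℕ) : ℚ_[p])‖ = 1 := by
        rw [Padic.norm_natCast_eq_one_iff]
        refine (Nat.Prime.coprime_iff_not_dvd hp.out).mpr fun hdvd => ?_
        exact absurd ((hp.out.dvd_factorial).mp hdvd) (not_le.mpr hdp)
      have h3 : (algebraMap ℚ_[p] ℂ_[p]) ((d.factorial : ℕ) : ℚ_[p]) =
          ((d.factorial : ℕ) : ℂ_[p]) := map_natCast _ _
      rw [← h3, norm_algebraMap', h2]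
    rw [h1, one_pow]
  have hsmall : SmallCoeff (psPoly P t - C (((d.factorial : ℕ) : ℂ_[p]) ^ s) * f) δ := by
    rw [← psPoly_eq hP x]
    intro l
    rw [coeff_sub, psPoly_coeff, psPoly_coeff]
    split_ifs
    · exact block_P (P l) _ _ ht1 hx1 hδ hclose
    · rw [sub_self, norm_zero]
      exact hδ
  have hrem := smallCoeff_modByMonic hAm hA1 hδ hsmall i
  have e1 : (psPoly P t - C (((d.factorial : ℕ) : ℂ_[p]) ^ s) * f) %ₘ A =
      psPoly P t %ₘ A - (((d.factorial : ℕ) : ℂ_[p]) ^ s) • (f %ₘ A) := by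
    rw [← smul_eq_C_mul, sub_modByMonic, smul_modByMonic]
  rw [e1, coeff_sub, coeff_smul, smul_eq_mul] at hrem
  have hbig : r < ‖(((d.factorial : ℕ) : ℂ_[p]) ^ s) * (f %ₘ A).coeff i‖ := by
    rw [norm_mul, hfac, one_mul]
    exact h
  by_contra hno
  rw [not_lt] at hno
  have h2 : (((d.factorial : ℕ) : ℂ_[p]) ^ s) * (f %ₘ A).coeff i =
      (psPoly P t %ₘ A).coeff i + -((psPoly P t %ₘ A).coeff i -
        (((d.factorial : ℕ) : ℂ_[p]) ^ s) * (f %ₘ A).coeff i) := by ring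
  have h3 : ‖(((d.factorial : ℕ) : ℂ_[p]) ^ s) * (f %ₘ A).coeff i‖ ≤ r := by
    rw [h2]
    refine (IsUltrametricDist.norm_add_le_max _ _).trans (max_le hno ?_)
    rw [norm_neg]
    exact hrem.trans hδr
  exact absurd hbig (not_lt.mpr h3)

/-- BLOCK LN (the higher level): if `e + 1` of the numbers `α` are within `δ` of the `μ`, the
remainder is at most `δ`. -/
theorem block_LN {p : ℕ} [hp : Fact p.Prime] {d e : ℕ} {s : ℕ}
    {P : ℕ → MvPolynomial (Fin d) ℤ}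
    (hP : ∀ {A : Type} [CommRing A] (α : Fin d → A) (i : ℕ),
      MvPolynomial.eval₂ (Int.castRingHom A) (fun j : Fin d => ∑ i, α i ^ ((j : ℕ) + 1)) (P i) =
        ((d.factorial : ℕ) : A) ^ s * (∏ j, (X - C (α j))).coeff i) {δ : ℝ} (hδ : 0 ≤ δ)
    (α : Fin d → ℂ_[p]) (hα : ∀ i, ‖α i‖ ≤ 1) (ι : Fin (e + 1) ↪ Fin d)
    (μ : Fin (e + 1) → ℂ_[p]) (hμ : ∀ a, ‖μ a‖ ≤ 1) (h : ∀ a, ‖α (ι a) - μ a‖ ≤ δ) (i : ℕ) :
    ‖((psPoly P (fun j : Fin d => ∑ i, α i ^ ((j : ℕ) + 1))) %ₘ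
      (∏ a, (X - C (μ a)))).coeff i‖ ≤ δ := by
  rw [psPoly_eq hP α]
  refine block_REM α hα ι μ hμ hδ h ?_ i
  rw [← Nat.cast_pow]
  exact IsUltrametricDist.norm_natCast_le_one ℂ_[p] _

end Pool.Agent.IT
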