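import Pool.Agent.Lib_helper76.IT.U
import Pool.Agent.Lib_helper76.IT.EsymP

set_option autoImplicit false

namespace Pool.Agent.IT

open Polynomial

/-- BLOCK TR (transfer from the bottom to a higher level, for given roots of unity `ξ a * w ^ u a`).
`Θ j` is the polynomial of the `j + 1`-st power sum; its values at `w₀` and `w` are the power sums of
`α₀` and `α`. If a coefficient of the remainder at `w₀` is larger than `r`, so is the one at `w`. -/
theorem block_TR {p : ℕ} [hp : Fact p.Prime] {O : Type} [CommRing O] (θ : O →+* ℂ_[p]) {r : ℝ}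
    (hr0 : 0 ≤ r) (hr : ∀ a : O, ‖θ a‖ = 1 ∨ ‖θ a‖ ≤ r) (hr1 : r < 1) {d e : ℕ}
    (Θ : Fin d → O[X]) {s : ℕ} {P : ℕ → MvPolynomial (Fin d) ℤ}
    (hP : ∀ {A : Type} [CommRing A] (α : Fin d → A) (i : ℕ),
      MvPolynomial.eval₂ (Int.castRingHom A) (fun j : Fin d => ∑ i, α i ^ ((j : ℕ) + 1)) (P i) =
        ((d.factorial : ℕ) : A) ^ s * (∏ j, (X - C (α j))).coeff i)
    (ξ : Fin (e + 1) → O) (u : Fin (e + 1) → ℕ) {w₀ w : ℂ_[p]} (h0 : ‖w₀ - 1‖ ≤ ‖w - 1‖)
    (h1 : ‖w - 1‖ < 1) (α₀ α : Fin d → ℂ_[p])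
    (hα₀ : ∀ j : Fin d, (Θ j).eval₂ θ w₀ = ∑ i, α₀ i ^ ((j : ℕ) + 1))
    (hα : ∀ j : Fin d, (Θ j).eval₂ θ w = ∑ i, α i ^ ((j : ℕ) + 1)) (i : ℕ)
    (hbig : r < ‖((C (((d.factorial : ℕ) : ℂ_[p]) ^ s) * ∏ j, (X - C (α₀ j))) %ₘ
      (∏ a, (X - C (θ (ξ a) * w₀ ^ u a)))).coeff i‖) :
    r < ‖((C (((d.factorial : ℕ) : ℂ_[p]) ^ s) * ∏ j, (X - C (α j))) %ₘ
      (∏ a, (X - C (θ (ξ a) * w ^ u a)))).coeff i‖ := by
  classical
  set F : (O[X])[X] := ∑ i ∈ Finset.range (d + 1),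
    C (MvPolynomial.eval₂ (Int.castRingHom O[X]) Θ (P i)) * X ^ i with hF
  set A : (O[X])[X] := ∏ a, (X - C (C (ξ a) * X ^ u a)) with hA
  have hAm : A.Monic := monic_prod_of_monic _ _ fun a _ => monic_X_sub_C _
  have key : ∀ (z : ℂ_[p]) (β : Fin d → ℂ_[p]),
      (∀ j : Fin d, (Θ j).eval₂ θ z = ∑ i, β i ^ ((j : ℕ) + 1)) →
      ((C (((d.factorial : ℕ) : ℂ_[p]) ^ s) * ∏ j, (X - C (β j))) %ₘ
        (∏ a, (X - C (θ (ξ a) * z ^ u a)))).coeff i = ((F %ₘ A).coeff i).eval₂ θ z := by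
    intro z β hβ
    have hFz : F.map (eval₂RingHom θ z) =
        C (((d.factorial : ℕ) : ℂ_[p]) ^ s) * ∏ j, (X - C (β j)) := by
      ext l
      rw [coeff_map, hF, finsetSum_coeff, coeff_C_mul, ← hP β l]
      simp only [coeff_C_mul, coeff_X_pow, mul_ite, mul_one, mul_zero]
      rw [Finset.sum_ite_eq]
      by_cases hl : l ∈ Finset.range (d + 1)
      · rw [if_pos hl, MvPolynomial.eval₂_comp_left]
        have h1 : (eval₂RingHom θ z).comp (Int.castRingHom O[X]) = Int.castRingHom ℂ_[p] :=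
          RingHom.ext_int _ _
        rw [h1]
        congr 1
        funext j
        exact hβ j
      · rw [if_neg hl, map_zero, hP β l]
        rw [coeff_eq_zero_of_natDegree_lt, mul_zero]
        refine lt_of_le_of_lt (natDegree_prod_le _ _) ?_
        refine lt_of_le_of_lt (Finset.sum_le_card_nsmul _ _ 1 fun j _ =>
          natDegree_X_sub_C_le _) ?_
        rw [Finset.mem_range] at hl
        simp
        omega
    have hAz : A.map (eval₂RingHom θ z) = ∏ a, (X - C (θ (ξ a) * z ^ u a)) := by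
      rw [hA, Polynomial.map_prod]
      refine Finset.prod_congr rfl fun a _ => ?_
      rw [Polynomial.map_sub, map_X, map_C]
      simp
    rw [← hFz, ← hAz, ← map_modByMonic _ hAm, coeff_map]
    rfl
  rw [key w₀ α₀ hα₀] at hbig
  rw [key w α hα]
  exact block_U θ hr0 hr hr1 _ h0 h1 hbig

end Pool.Agent.IT
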